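import Pool.Agent.Helper24.EG.Goals

/-!
# Project EG (MP_98cfca_co, Q2), packet EG-BURN
-/

set_option autoImplicit false

namespace Pool.Agent.Helper54.EG

open Finset Pool.Agent.Helper24.EG

noncomputable section

theorem ia {p : ℕ} (σ : Equiv.Perm (Fin p)) (u : Fin p) : σ⁻¹ (σ u) = u :=
  σ.symm_apply_apply u

theorem ai {p : ℕ} (σ : Equiv.Perm (Fin p)) (u : Fin p) : σ (σ⁻¹ u) = u :=
  σ.apply_symm_apply u

/-- `G` moved by `σ`. -/
def mv {p : ℕ} (σ : Equiv.Perm (Fin p)) (G : SimpleGraph (Fin p)) : SimpleGraph (Fin p) :=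
  G.comap (σ⁻¹ : Equiv.Perm (Fin p))

theorem mv_adj {p : ℕ} (σ : Equiv.Perm (Fin p)) (G : SimpleGraph (Fin p)) (u v : Fin p) :
    (mv σ G).Adj u v ↔ G.Adj (σ⁻¹ u) (σ⁻¹ v) := Iff.rfl

/-- the isomorphism from `G` to `mv σ G`. -/
def mvIso {p : ℕ} (σ : Equiv.Perm (Fin p)) (G : SimpleGraph (Fin p)) : G ≃g mv σ G where
  toEquiv := σ
  map_rel_iff' := by
    intro u v
    rw [mv_adj, ia, ia]

theorem mv_of_iso {p : ℕ} {G H : SimpleGraph (Fin p)} (e : G ≃g H) :
    mv (e.toEquiv : Equiv.Perm (Fin p)) G = H := by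
  ext u v
  rw [mv_adj]
  have h := e.map_rel_iff' (a := e.toEquiv.symm u) (b := e.toEquiv.symm v)
  rw [Equiv.apply_symm_apply, Equiv.apply_symm_apply] at h
  exact h.symm

/-- the property. -/
def PP (p q : ℕ) (G : SimpleGraph (Fin p)) : Prop :=
  ((∀ v, Even (G.neighborSet v).ncard) ∧ G.Connected) ∧ G.edgeSet.ncard = q

theorem PP_iso {p q : ℕ} {G H : SimpleGraph (Fin p)} (e : G ≃g H) (h : PP p q G) : PP p q H := by
  obtain ⟨⟨h1, h2⟩, h3⟩ := h
  refine ⟨⟨fun v => ?_, e.connected_iff.1 h2⟩, ?_⟩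
  · have h4 := Nat.card_congr (e.mapNeighborSet (e.symm v))
    rw [RelIso.apply_symm_apply] at h4
    rw [Nat.card_coe_set_eq, Nat.card_coe_set_eq] at h4
    rw [← h4]
    exact h1 _
  · have h4 := Nat.card_congr e.mapEdgeSet
    rw [Nat.card_coe_set_eq, Nat.card_coe_set_eq] at h4
    rw [← h4, h3]

/-- the graphs counted. -/
abbrev XX (p q : ℕ) : Type := {G : SimpleGraph (Fin p) // PP p q G}

instance act (p q : ℕ) : MulAction (Equiv.Perm (Fin p)) (XX p q) where
  smul σ G := ⟨mv σ G.1, PP_iso (mvIso σ G.1) G.2⟩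
  one_smul G := by
    apply Subtype.ext
    ext u v
    change (mv 1 G.1).Adj u v ↔ _
    rw [mv_adj, inv_one, Equiv.Perm.one_apply, Equiv.Perm.one_apply]
  mul_smul σ τ G := by
    apply Subtype.ext
    ext u v
    change (mv (σ * τ) G.1).Adj u v ↔ (mv σ (mv τ G.1)).Adj u v
    rw [mv_adj, mv_adj, mv_adj, mul_inv_rev, Equiv.Perm.mul_apply, Equiv.Perm.mul_apply]

theorem smul_val {p q : ℕ} (σ : Equiv.Perm (Fin p)) (G : XX p q) : (σ • G).1 = mv σ G.1 := rfl

theorem fixed_iff {p : ℕ} (σ : Equiv.Perm (Fin p)) (G : SimpleGraph (Fin p)) :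
    mv σ G = G ↔ ∀ u v, G.Adj (σ u) (σ v) ↔ G.Adj u v := by
  constructor
  · intro h u v
    conv_lhs => rw [← h]
    rw [mv_adj, ia, ia]
  · intro h
    ext u v
    rw [mv_adj, ← h, ai, ai]

theorem orbit_iff {p q : ℕ} (G H : XX p q) :
    MulAction.orbitRel (Equiv.Perm (Fin p)) (XX p q) G H ↔ Nonempty (G.1 ≃g H.1) := by
  rw [MulAction.orbitRel_apply, MulAction.mem_orbit_iff]
  constructor
  · rintro ⟨σ, h⟩
    have h1 : mv σ H.1 = G.1 := congrArg Subtype.val h
    exact ⟨((mvIso σ H.1).trans (SimpleGraph.Iso.refl.trans (h1 ▸ SimpleGraph.Iso.refl))).symm⟩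
  · rintro ⟨e⟩
    exact ⟨e.symm.toEquiv, Subtype.ext (mv_of_iso e.symm)⟩

/-- the isomorphism class. -/
def cls {p q : ℕ} : Quotient (MulAction.orbitRel (Equiv.Perm (Fin p)) (XX p q)) →
    Set (SimpleGraph (Fin p)) :=
  Quotient.lift (fun G : XX p q => {H : SimpleGraph (Fin p) | Nonempty (G.1 ≃g H)}) (by
    intro G G' h
    obtain ⟨e⟩ := (orbit_iff G G').1 h
    ext H
    exact ⟨fun ⟨f⟩ => ⟨e.symm.trans f⟩, fun ⟨f⟩ => ⟨e.trans f⟩⟩)

theorem cls_inj {p q : ℕ} : Function.Injective (cls (p := p) (q := q)) := by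
  intro a b
  induction a using Quotient.inductionOn with
  | h G =>
    induction b using Quotient.inductionOn with
    | h G' =>
      intro h
      apply Quotient.sound
      have h1 : G'.1 ∈ {H : SimpleGraph (Fin p) | Nonempty (G'.1 ≃g H)} := ⟨SimpleGraph.Iso.refl⟩
      have h2 : G'.1 ∈ {H : SimpleGraph (Fin p) | Nonempty (G.1 ≃g H)} := by
        have h3 : {H : SimpleGraph (Fin p) | Nonempty (G.1 ≃g H)} =
          {H : SimpleGraph (Fin p) | Nonempty (G'.1 ≃g H)} := h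
        rw [h3]
        exact h1
      exact (orbit_iff G G').2 h2

theorem upq_eq (p q : ℕ) :
    upq p q = Nat.card (Quotient (MulAction.orbitRel (Equiv.Perm (Fin p)) (XX p q))) := by
  have h : {C : Set (SimpleGraph (Fin p)) | ∃ G : SimpleGraph (Fin p),
      ((∀ v, Even (G.neighborSet v).ncard) ∧ G.Connected) ∧ G.edgeSet.ncard = q ∧
        C = {H | Nonempty (G ≃g H)}} = Set.range (cls (p := p) (q := q)) := by
    ext C
    constructor
    · rintro ⟨G, h1, h2, rfl⟩
      exact ⟨Quotient.mk _ ⟨G, h1, h2⟩, rfl⟩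
    · rintro ⟨a, rfl⟩
      induction a using Quotient.inductionOn with
      | h G => exact ⟨G.1, G.2.1, G.2.2, rfl⟩
  unfold upq
  rw [h, ← Nat.card_coe_set_eq, Nat.card_range_of_injective cls_inj]

open Classical in
theorem burn_q (p q : ℕ) : ∑ α : Equiv.Perm (Fin p),
    (#{G : SimpleGraph (Fin p) | PP p q G ∧ ∀ u v, G.Adj (α u) (α v) ↔ G.Adj u v} : ℕ) =
      p.factorial * upq p q := by
  have h := MulAction.sum_card_fixedBy_eq_card_orbits_mul_card_group (Equiv.Perm (Fin p)) (XX p q)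
  rw [upq_eq, Nat.card_eq_fintype_card, mul_comm]
  rw [Fintype.card_perm, Fintype.card_fin] at h
  rw [← h]
  refine Finset.sum_congr rfl fun α _ => ?_
  rw [← Fintype.card_subtype]
  refine Fintype.card_congr
    { toFun := fun G => ⟨⟨G.1, G.2.1⟩, ?_⟩
      invFun := fun G => ⟨G.1.1, G.1.2, ?_⟩
      left_inv := fun _ => rfl
      right_inv := fun _ => rfl }
  · rw [MulAction.mem_fixedBy]
    exact Subtype.ext ((fixed_iff α G.1).2 G.2.2)
  · have h1 := G.2
    rw [MulAction.mem_fixedBy] at h1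
    exact (fixed_iff α G.1.1).1 (congrArg Subtype.val h1)

open Classical in
theorem Va_eq {p : ℕ} (α : Equiv.Perm (Fin p)) (x : ℝ) : Va α x =
    ∑ q ∈ range (p.choose 2 + 1),
      (#{G : SimpleGraph (Fin p) | PP p q G ∧ ∀ u v, G.Adj (α u) (α v) ↔ G.Adj u v} : ℝ) * x ^ q := by
  unfold Va
  rw [← Finset.sum_fiberwise_of_maps_to (t := range (p.choose 2 + 1))
    (g := fun G : SimpleGraph (Fin p) => G.edgeSet.ncard)]
  · refine Finset.sum_congr rfl fun q _ => ?_
    rw [Finset.filter_filter]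
    have h : (Finset.univ.filter fun G : SimpleGraph (Fin p) =>
        (((∀ v, Even (G.neighborSet v).ncard) ∧ G.Connected) ∧
          ∀ u v, G.Adj (α u) (α v) ↔ G.Adj u v) ∧ G.edgeSet.ncard = q) =
        Finset.univ.filter fun G : SimpleGraph (Fin p) =>
          PP p q G ∧ ∀ u v, G.Adj (α u) (α v) ↔ G.Adj u v := by
      apply Finset.filter_congr
      intro G _
      unfold PP
      tauto
    rw [h]
    rw [Finset.sum_congr rfl (g := fun _ => x ^ q)]
    · rw [Finset.sum_const, nsmul_eq_mul]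
    · intro G hG
      rw [Finset.mem_filter] at hG
      rw [hG.2.1.2]
  · intro G _
    rw [Finset.mem_range, Nat.lt_succ_iff]
    have h1 := G.card_edgeFinset_le_card_choose_two
    rw [Fintype.card_fin] at h1
    rw [Set.ncard_eq_toFinset_card']
    exact h1

theorem gBURN : G_BURN := by
  classical
  intro p x
  rw [Finset.sum_congr rfl fun α _ => Va_eq α x, Finset.sum_comm, Finset.mul_sum]
  refine Finset.sum_congr rfl fun q _ => ?_
  rw [← Finset.sum_mul, ← mul_assoc]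
  congr 1
  have h := burn_q p q
  have h2 := congrArg (Nat.cast : ℕ → ℝ) h
  push_cast at h2
  exact h2.symm

end

end Pool.Agent.Helper54.EG
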